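import Pool.Agent.H940.GP.DiamWin
import Pool.Agent.W424.NC.Win

/-!
The largest cluster of bond percolation in the box `Λ_n = {0, …, n}²` away from the critical
point. Let `D_n` be the Euclidean diameter of a cluster of largest diameter. Below the critical
point `D_n` has exponential tails on the scale `L = (1/2 - p)^(-4/3)` and the exact order
`L log (n / L)`. The scaling limits at parameters `p n` have a degenerate diameter (`0` or the
diameter `√2` of the unit square) if and only if `|p n - 1/2| n^(3/4)` tends to infinity, on the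
subcritical or the supercritical side.
-/

namespace Pool.Agent.Results.MP_6bd702_pr.OffCriticalDiameter

open Finset Filter Topology

/-- Vertices of the square lattice. -/
abbrev Vertex := ℤ × ℤ

/-- Edges of the square lattice: `(x, y, true)` joins `(x, y)` to `(x + 1, y)` and
`(x, y, false)` joins `(x, y)` to `(x, y + 1)`. -/
abbrev Edge := ℤ × ℤ × Bool

/-- First end of an edge. -/
def src (e : Edge) : Vertex := (e.1, e.2.1)

/-- Second end of an edge. -/
def tgt (e : Edge) : Vertex := if e.2.2 then (e.1 + 1, e.2.1) else (e.1, e.2.1 + 1)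

/-- The vertex `v` belongs to the box `Λ_n = {0, …, n}²`. -/
def InBox (n : ℕ) (v : Vertex) : Prop := (0 ≤ v.1 ∧ v.1 ≤ n) ∧ (0 ≤ v.2 ∧ v.2 ≤ n)

instance (n : ℕ) (v : Vertex) : Decidable (InBox n v) := by
  unfold InBox
  infer_instance

/-- The edges with both ends in the box. -/
noncomputable def edges (n : ℕ) : Finset Edge :=
  (Icc (0:ℤ) n ×ˢ (Icc (0:ℤ) n ×ˢ univ)).filter (fun e => InBox n (src e) ∧ InBox n (tgt e))

open Classical in
/-- The probability of an event: every edge of the box is open with probability `p`,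
independently, and the event is a property of the set `F` of the open edges. -/
noncomputable def prob (p : ℝ) (n : ℕ) (A : Finset Edge → Prop) : ℝ :=
  ∑ F ∈ (edges n).powerset with A F, p ^ F.card * (1 - p) ^ (edges n \ F).card

/-- `u` and `v` belong to the same cluster: they are joined by a path of edges of `F`. -/
def Joined (F : Finset Edge) (u v : Vertex) : Prop :=
  Relation.ReflTransGen
    (fun a b => ∃ e ∈ F, (src e = a ∧ tgt e = b) ∨ (src e = b ∧ tgt e = a)) u v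

/-- The Euclidean distance. -/
noncomputable def eDist (u v : Vertex) : ℝ :=
  Real.sqrt (((u.1:ℝ) - v.1) ^ 2 + ((u.2:ℝ) - v.2) ^ 2)

/-- The Euclidean diameter of a cluster of largest diameter: the largest Euclidean distance
between two vertices of the box which belong to the same cluster. -/
noncomputable def diam (n : ℕ) (F : Finset Edge) : ℝ :=
  sSup {d : ℝ | ∃ u v : Vertex, InBox n u ∧ InBox n v ∧ Joined F u v ∧ d = eDist u v}

/-! ### Proofs -/

theorem edges_eq (n : ℕ) : edges n = H974.RE 0 n 0 n := by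
  ext e
  obtain ⟨x, y, b⟩ := e
  unfold edges
  rw [mem_filter, mem_product, mem_product, mem_Icc, mem_Icc]
  cases b
  · rw [H974.mem_RE_false]
    simp only [mem_univ, InBox, src, tgt, Bool.false_eq_true, if_false, and_true]
    omega
  · rw [H974.mem_RE_true]
    simp only [mem_univ, InBox, src, tgt, if_true, and_true]
    omega

theorem prob_eq (p : ℝ) (n : ℕ) (A : Finset Edge → Prop) :
    prob p n A = H974.Pr (fun _ => p) (H974.RE 0 n 0 n) A := by
  classical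
  unfold prob H974.Pr H974.Ex
  rw [edges_eq, sum_filter]
  apply sum_congr
  · congr
  · intro F _
    beta_reduce
    rw [prod_const, prod_const]
    by_cases hA : A F
    · rw [if_pos hA, H974.ind_of hA, mul_one]
    · rw [if_neg hA, H974.ind_not_of hA, mul_zero]

theorem joined_iff (F : Finset Edge) (u v : Vertex) :
    Joined F u v ↔ H974.Reach (F : Set Edge) u v := Iff.rfl

theorem diam_set_finite (n : ℕ) (F : Finset Edge) :
    {d : ℝ | ∃ u v : Vertex, InBox n u ∧ InBox n v ∧ Joined F u v ∧ d = eDist u v}.Finite := by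
  have h1 : {u : Vertex | InBox n u}.Finite := by
    apply ((Icc (0:ℤ) n ×ˢ Icc (0:ℤ) n).finite_toSet).subset
    rintro ⟨x, y⟩ ⟨h2, h3⟩
    simp only [coe_product, coe_Icc, Set.mem_prod, Set.mem_Icc]
    exact ⟨h2, h3⟩
  apply ((h1.prod h1).image (fun q : Vertex × Vertex => eDist q.1 q.2)).subset
  rintro d ⟨u, v, hu, hv, -, rfl⟩
  exact ⟨(u, v), ⟨hu, hv⟩, rfl⟩

theorem le_diam {n : ℕ} {F : Finset Edge} {u v : Vertex} (hu : InBox n u) (hv : InBox n v)
    (h : Joined F u v) : eDist u v ≤ diam n F :=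
  le_csSup (diam_set_finite n F).bddAbove ⟨u, v, hu, hv, h, rfl⟩

theorem diam_mem (n : ℕ) (F : Finset Edge) :
    ∃ u v : Vertex, InBox n u ∧ InBox n v ∧ Joined F u v ∧ diam n F = eDist u v := by
  have h : {d : ℝ | ∃ u v : Vertex, InBox n u ∧ InBox n v ∧ Joined F u v ∧
      d = eDist u v}.Nonempty := by
    have h0 : InBox n (0, 0) := ⟨⟨le_rfl, by simp⟩, ⟨le_rfl, by simp⟩⟩
    exact ⟨_, (0, 0), (0, 0), h0, h0, Relation.ReflTransGen.refl, rfl⟩
  exact h.csSup_mem (diam_set_finite n F)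

theorem far_of_diam {n k : ℕ} (hk : 1 ≤ k) {F : Finset Edge} (hF : F ⊆ H974.RE 0 n 0 n)
    (hd : 3 * (k:ℝ) ≤ diam n F) : H940.GP.Far n k F := by
  obtain ⟨u, v, hu, hv, hj, he⟩ := diam_mem n F
  rw [he] at hd
  apply H940.GP.far_of hk hF hu hv ((joined_iff _ _ _).mp hj)
  have h1 : (3 * (k:ℝ)) ^ 2 ≤ eDist u v ^ 2 := by
    apply pow_le_pow_left₀ (by positivity) hd
  unfold eDist at h1
  rw [Real.sq_sqrt (by positivity)] at h1
  linarith

theorem diam_of_TB {n h : ℕ} (hhn : h ≤ n) {F : Finset Edge} (hT : H974.TBc 0 n 0 h F) :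
    (h:ℝ) ≤ diam n F := by
  obtain ⟨x, x', hx, hx', hr⟩ := hT
  have hhn' : (h:ℤ) ≤ n := by exact_mod_cast hhn
  have h1 : eDist (x', (h:ℤ)) (x, 0) ≤ diam n F := by
    apply le_diam
    · exact ⟨hx', by simp only; omega⟩
    · exact ⟨hx, by simp only; omega⟩
    · rw [joined_iff]
      exact (hr.mono Set.inter_subset_left).symm
  refine le_trans ?_ h1
  unfold eDist
  apply Real.le_sqrt_of_sq_le
  simp only [Int.cast_natCast, Int.cast_zero, sub_zero]
  nlinarith [sq_nonneg ((x':ℝ) - x)]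

theorem diam_of_near {n k : ℕ} (hk : 1 ≤ k) (hkn : k ≤ n) {F : Finset Edge}
    (h1 : H974.LRc 0 n 0 k F) (h2 : H974.TBc ((n:ℤ) - k) n 0 n F) :
    Real.sqrt 2 * ((n:ℝ) - k) ≤ diam n F := by
  obtain ⟨y, x, hy, hx, hr⟩ := H940.GP.near_joined hk hkn h1 h2
  have hkn' : (k:ℤ) ≤ n := by exact_mod_cast hkn
  have h3 : eDist (x, (n:ℤ)) (0, y) ≤ diam n F := by
    apply le_diam
    · exact ⟨by simp only; omega, by simp only; omega⟩
    · exact ⟨by simp only; omega, by simp only; omega⟩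
    · rw [joined_iff]
      exact hr.symm
  refine le_trans ?_ h3
  unfold eDist
  apply Real.le_sqrt_of_sq_le
  have hx1 : (n:ℝ) - k ≤ x := by exact_mod_cast hx.1
  have hy1 : (y:ℝ) ≤ k := by exact_mod_cast hy.2
  have hkn2 : (k:ℝ) ≤ n := by exact_mod_cast hkn
  have e1 : ((n:ℝ) - k) ^ 2 ≤ (x:ℝ) ^ 2 := pow_le_pow_left₀ (by linarith) hx1 2
  have e2 : ((n:ℝ) - k) ^ 2 ≤ ((n:ℝ) - y) ^ 2 := pow_le_pow_left₀ (by linarith) (by linarith) 2
  rw [mul_pow, Real.sq_sqrt (by norm_num)]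
  simp only [Int.cast_natCast, Int.cast_zero, sub_zero]
  linarith

theorem diam_of_narrow {n m : ℕ} (hm : 1 ≤ m) (hn : n ≤ 3 * m + 2) (h30 : 30 ≤ n)
    (hmn : 3 * m ≤ n) {F : Finset Edge} (hF : F ⊆ H974.RE 0 n 0 n)
    (hT : ¬ H974.TBc 0 n m ((2 * m : ℕ) : ℤ) F) :
    diam n F ≤ (Real.sqrt 2 - 1/10) * n := by
  obtain ⟨u, v, hu, hv, hj, he⟩ := diam_mem n F
  rw [he]
  rw [joined_iff] at hj
  have h1 := H940.GP.narrow hm hn hF hT hu.2.1 hv.2.2 hj
  have h2 := H940.GP.narrow hm hn hF hT hv.2.1 hu.2.2 hj.symm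
  have h1' : (v.2:ℝ) - u.2 ≤ 2 * m + 1 := by exact_mod_cast h1
  have h2' : (u.2:ℝ) - v.2 ≤ 2 * m + 1 := by exact_mod_cast h2
  have h30' : (30:ℝ) ≤ n := by exact_mod_cast h30
  have hmn' : 3 * (m:ℝ) ≤ n := by exact_mod_cast hmn
  have a1 : (0:ℝ) ≤ u.1 := by exact_mod_cast hu.1.1
  have a2 : (u.1:ℝ) ≤ n := by exact_mod_cast hu.1.2
  have a3 : (0:ℝ) ≤ v.1 := by exact_mod_cast hv.1.1
  have a4 : (v.1:ℝ) ≤ n := by exact_mod_cast hv.1.2
  have s1 : ((u.1:ℝ) - v.1) ^ 2 ≤ (n:ℝ) ^ 2 := by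
    apply sq_le_sq' <;> linarith
  have s2 : ((u.2:ℝ) - v.2) ^ 2 ≤ (7/10 * (n:ℝ)) ^ 2 := by
    apply sq_le_sq' <;> linarith
  have h14 : (1414:ℝ) / 1000 ≤ Real.sqrt 2 := by
    apply Real.le_sqrt_of_sq_le
    norm_num
  unfold eDist
  rw [Real.sqrt_le_left (by nlinarith)]
  have s3 : (13/10 * (n:ℝ)) ^ 2 ≤ ((Real.sqrt 2 - 1/10) * n) ^ 2 := by
    apply pow_le_pow_left₀ (by positivity)
    nlinarith
  nlinarith

theorem winU : H940.GP.WinU := W424.NC.win_upper 3 (by norm_num)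

theorem winL : H940.GP.WinL := W424.NC.win_lower 2 (by norm_num)

theorem winLD : H940.GP.WinLD := W424.NC.win_lower_dual 4 (by norm_num)

theorem part1 : ∃ c C : ℝ, 0 < c ∧ 0 < C ∧ ∀ p : ℝ, 0 ≤ p → p ≤ 1/2 → ∀ n h : ℕ, 1 ≤ h →
    prob p n (fun F => (h:ℝ) ≤ diam n F) ≤
      C * ((n:ℝ) / h + 1) ^ 2 * Real.exp (-(c * (h * (1/2 - p)^(4/3 : ℝ)))) := by
  obtain ⟨c, C, hc, hC, hup⟩ := H940.GP.far_up winU
  refine ⟨c / 5, 25 * C + Real.exp c, by positivity, by positivity, ?_⟩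
  intro p hp0 hp1 n h hh
  have hp := H974.okq (q := p) hp0 (by linarith)
  rw [prob_eq]
  have hδ0 : 0 ≤ (1/2 - p)^(4/3 : ℝ) := Real.rpow_nonneg (by linarith) _
  have hδ1 : (1/2 - p)^(4/3 : ℝ) ≤ 1 :=
    Real.rpow_le_one (by linarith) (by linarith) (by norm_num)
  have hh0 : (1:ℝ) ≤ h := by exact_mod_cast hh
  have hnh : 0 ≤ (n:ℝ) / h := by positivity
  rcases lt_or_ge h 3 with h3 | h3
  · have h2 : (h:ℝ) ≤ 2 := by exact_mod_cast (by omega : h ≤ 2)
    refine (H974.Pr_le_one hp _ _).trans ?_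
    have e1 : c / 5 * (h * (1/2 - p)^(4/3 : ℝ)) ≤ c := by
      have : h * (1/2 - p)^(4/3 : ℝ) ≤ 2 * 1 := mul_le_mul h2 hδ1 hδ0 (by norm_num)
      nlinarith
    have e2 : Real.exp (-c) ≤ Real.exp (-(c / 5 * (h * (1/2 - p)^(4/3 : ℝ)))) :=
      Real.exp_le_exp.mpr (by linarith)
    have e3 : (1:ℝ) ≤ ((n:ℝ) / h + 1) ^ 2 := by nlinarith
    have e4 : Real.exp c * Real.exp (-c) = 1 := by rw [← Real.exp_add]; simp
    calc (1:ℝ) = Real.exp c * 1 * Real.exp (-c) := by rw [mul_one, e4]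
      _ ≤ (25 * C + Real.exp c) * ((n:ℝ) / h + 1) ^ 2 *
          Real.exp (-(c / 5 * (h * (1/2 - p)^(4/3 : ℝ)))) := by
        apply mul_le_mul _ e2 (Real.exp_pos _).le (by positivity)
        apply mul_le_mul (by linarith) e3 (by norm_num) (by positivity)
  · obtain ⟨k, hk⟩ : ∃ k : ℕ, k = h / 3 := ⟨_, rfl⟩
    have hk1 : 1 ≤ k := by omega
    have hk3 : 3 * k ≤ h := by omega
    have hk5 : h ≤ 5 * k := by omega
    have hk1' : (1:ℝ) ≤ k := by exact_mod_cast hk1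
    have hk3' : 3 * (k:ℝ) ≤ h := by exact_mod_cast hk3
    have hk5' : (h:ℝ) ≤ 5 * k := by exact_mod_cast hk5
    have h1 : H974.Pr (fun _ => p) (H974.RE 0 n 0 n) (fun F => (h:ℝ) ≤ diam n F) ≤
        H974.Pr (fun _ => p) (H974.RE 0 n 0 n) (H940.GP.Far n k) := by
      apply H974.Pr_mono hp
      intro F hF hd
      exact far_of_diam hk1 hF (hk3'.trans hd)
    refine h1.trans ((hup p hp0 hp1 n k hk1).trans ?_)
    have e1 : (n:ℝ) / k ≤ 5 * ((n:ℝ) / h) := by
      rw [div_le_iff₀ (by linarith)]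
      have : (n:ℝ) = (n:ℝ) / h * h := by field_simp
      nlinarith
    have e2 : Real.exp (-(c * (k * (1/2 - p)^(4/3 : ℝ)))) ≤
        Real.exp (-(c / 5 * (h * (1/2 - p)^(4/3 : ℝ)))) := by
      apply Real.exp_le_exp.mpr
      have := mul_le_mul_of_nonneg_right hk5' hδ0
      nlinarith
    have e3 : 0 ≤ (n:ℝ) / k := by positivity
    apply mul_le_mul _ e2 (Real.exp_pos _).le (by positivity)
    have e4 : (n:ℝ) / k * ((n:ℝ) / k + 1) ≤ 25 * ((n:ℝ) / h + 1) ^ 2 := by nlinarith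
    have e5 := mul_le_mul_of_nonneg_left e4 hC.le
    have e6 : 0 ≤ Real.exp c * ((n:ℝ) / h + 1) ^ 2 := by positivity
    calc C * ((n:ℝ) / k) * ((n:ℝ) / k + 1) = C * ((n:ℝ) / k * ((n:ℝ) / k + 1)) := by ring
      _ ≤ C * (25 * ((n:ℝ) / h + 1) ^ 2) := e5
      _ ≤ (25 * C + Real.exp c) * ((n:ℝ) / h + 1) ^ 2 := by linarith

theorem part4 : ∃ c C : ℝ, 0 < c ∧ 0 < C ∧ ∀ p : ℝ, 1/2 ≤ p → p ≤ 1 → ∀ n h : ℕ, 1 ≤ h →
    h ≤ n → prob p n (fun F => diam n F < Real.sqrt 2 * ((n:ℝ) - h)) ≤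
      C * ((n:ℝ) / h + 1) * Real.exp (-(c * (h * (p - 1/2)^(4/3 : ℝ)))) := by
  obtain ⟨c, C, hc, hC, hup⟩ := H940.GP.near_pr winU
  refine ⟨c, C, hc, hC, ?_⟩
  intro p hp0 hp1 n h hh hhn
  have hp := H974.okq (q := p) (by linarith) hp1
  rw [prob_eq]
  refine (H974.Pr_mono hp ?_).trans (hup p hp0 hp1 n h hh hhn)
  rintro F _ hd ⟨h1, h2⟩
  exact absurd (diam_of_near hh hhn h1 h2) (not_le.mpr hd)

theorem prob_mono_event {p : ℝ} (h0 : 0 ≤ p) (h1 : p ≤ 1) {n : ℕ} {A B : Finset Edge → Prop}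
    (h : ∀ F, F ⊆ H974.RE 0 n 0 n → A F → B F) : prob p n A ≤ prob p n B := by
  rw [prob_eq, prob_eq]
  exact H974.Pr_mono (H974.okq h0 h1) h

theorem prob_nonneg {p : ℝ} (h0 : 0 ≤ p) (h1 : p ≤ 1) (n : ℕ) (A : Finset Edge → Prop) :
    0 ≤ prob p n A := by
  rw [prob_eq]
  exact H974.Pr_nonneg (H974.okq h0 h1) _ _

theorem window_low (p : ℕ → ℝ) (hp : ∀ n, 0 ≤ p n ∧ p n ≤ 1) :
    (∀ ε : ℝ, 0 < ε →
      Tendsto (fun n : ℕ => prob (p n) n (fun F => ε * n ≤ diam n F)) atTop (𝓝 0)) ↔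
    Tendsto (fun n : ℕ => (1/2 - p n) * (n:ℝ)^(3/4 : ℝ)) atTop atTop := by
  constructor
  · intro hT
    by_contra hcon
    rw [tendsto_atTop] at hcon
    push Not at hcon
    obtain ⟨K, hK⟩ := hcon
    obtain ⟨δ, hδ, hlow⟩ := H940.GP.low_hh winL K
    have hev1 : ∀ᶠ n : ℕ in atTop, prob (p n) n (fun F => 1 * (n:ℝ) ≤ diam n F) < δ :=
      (hT 1 one_pos).eventually (gt_mem_nhds hδ)
    obtain ⟨n, hn1, hn2, hn3, hn4⟩ := (hK.and_eventually (hev1.and
      ((H940.GP.near_half (x := fun n => 1/2 - p n) (K := K)).and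
        (eventually_ge_atTop 1)))).exists
    have h1 := hn3 hn1
    have h2 := hlow (p n) (by linarith) (hp n).2 n hn4 hn1
    have h3 : H974.Pr (fun _ => p n) (H974.RE 0 n 0 n) (H974.TBc 0 n 0 n) ≤
        prob (p n) n (fun F => 1 * (n:ℝ) ≤ diam n F) := by
      rw [prob_eq]
      apply H974.Pr_mono (H974.okq (hp n).1 (hp n).2)
      intro F _ hF
      rw [one_mul]
      exact diam_of_TB le_rfl hF
    rw [H974.pr_TBc (p n) H974.TBE_subset_RE, sub_zero] at h3
    linarith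
  · intro hT ε hε
    obtain ⟨c, C, hc, hC, hup⟩ := part1
    have hlim := H940.GP.exp_tendsto hT (C * (2 / ε + 1) ^ 2) (c := c * (ε / 2)) (by positivity)
    refine squeeze_zero' ?_ ?_ hlim
    · filter_upwards with n
      exact prob_nonneg (hp n).1 (hp n).2 _ _
    · have hev1 : ∀ᶠ n : ℕ in atTop, 2 / ε ≤ (n:ℝ) :=
        tendsto_natCast_atTop_atTop.eventually_ge_atTop _
      have hev2 : ∀ᶠ n : ℕ in atTop, 0 < (1/2 - p n) * (n:ℝ)^(3/4 : ℝ) :=
        hT.eventually_gt_atTop 0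
      filter_upwards [hev1, hev2, eventually_ge_atTop 1] with n hn1 hn2 hn3
      have hn0 : (1:ℝ) ≤ n := by exact_mod_cast hn3
      have hnp : 0 < (n:ℝ)^(3/4 : ℝ) := by positivity
      have hδ0 : 0 < 1/2 - p n := by
        by_contra hneg
        push Not at hneg
        nlinarith
      rw [div_le_iff₀ hε] at hn1
      obtain ⟨h, hh⟩ : ∃ h : ℕ, h = ⌊ε * n⌋₊ := ⟨_, rfl⟩
      have f1 : ε * n < (h:ℝ) + 1 := by rw [hh]; exact Nat.lt_floor_add_one _
      have f2 : (h:ℝ) ≤ ε * n := by rw [hh]; exact Nat.floor_le (by positivity)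
      have f3 : ε / 2 * n ≤ h := by linarith
      have f4 : (0:ℝ) < h := by linarith
      have f5 : 1 ≤ h := by exact_mod_cast f4
      have hb := hup (p n) (hp n).1 (by linarith) n h f5
      have hm : prob (p n) n (fun F => ε * n ≤ diam n F) ≤
          prob (p n) n (fun F => (h:ℝ) ≤ diam n F) :=
        prob_mono_event (hp n).1 (hp n).2 (fun F _ hF => f2.trans hF)
      refine hm.trans (hb.trans ?_)
      have g1 : (n:ℝ) / h ≤ 2 / ε := by
        rw [div_le_div_iff₀ f4 hε]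
        linarith
      have g0 : 0 ≤ (n:ℝ) / h := by positivity
      have g2 : ((n:ℝ) / h + 1) ^ 2 ≤ (2 / ε + 1) ^ 2 :=
        pow_le_pow_left₀ (by linarith) (by linarith) 2
      apply mul_le_mul (mul_le_mul_of_nonneg_left g2 hC.le) _ (Real.exp_pos _).le (by positivity)
      apply Real.exp_le_exp.mpr
      rw [← H940.GP.pow_id hδ0.le]
      have g3 : 0 ≤ (1/2 - p n)^(4/3 : ℝ) := Real.rpow_nonneg hδ0.le _
      have g4 := mul_le_mul_of_nonneg_right f3 g3
      have g5 := mul_le_mul_of_nonneg_left g4 hc.le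
      linarith

theorem window_up (p : ℕ → ℝ) (hp : ∀ n, 0 ≤ p n ∧ p n ≤ 1) :
    (∀ ε : ℝ, 0 < ε → Tendsto (fun n : ℕ => prob (p n) n
      (fun F => diam n F ≤ (Real.sqrt 2 - ε) * n)) atTop (𝓝 0)) ↔
    Tendsto (fun n : ℕ => (p n - 1/2) * (n:ℝ)^(3/4 : ℝ)) atTop atTop := by
  constructor
  · intro hT
    by_contra hcon
    rw [tendsto_atTop] at hcon
    push Not at hcon
    obtain ⟨K, hK⟩ := hcon
    obtain ⟨δ, hδ, hlow⟩ := H940.GP.low_dual winLD K
    have hev1 : ∀ᶠ n : ℕ in atTop, prob (p n) n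
        (fun F => diam n F ≤ (Real.sqrt 2 - 1/10) * n) < δ :=
      (hT (1/10) (by norm_num)).eventually (gt_mem_nhds hδ)
    obtain ⟨n, hn1, hn2, hn3, hn4⟩ := (hK.and_eventually (hev1.and
      ((H940.GP.near_half (x := fun n => p n - 1/2) (K := K)).and
        (eventually_ge_atTop 30)))).exists
    have h1 := hn3 hn1
    obtain ⟨m, hm⟩ : ∃ m : ℕ, m = n / 3 := ⟨_, rfl⟩
    have h2 := hlow (p n) (hp n).1 (by linarith) n m (by omega) (by omega) (by omega) hn1
    have h3 : H974.Pr (fun _ => p n) (H974.RE 0 n 0 n)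
        (fun F => ¬ H974.TBc 0 n m ((2 * m : ℕ) : ℤ) F) ≤
        prob (p n) n (fun F => diam n F ≤ (Real.sqrt 2 - 1/10) * n) := by
      rw [prob_eq]
      apply H974.Pr_mono (H974.okq (hp n).1 (hp n).2)
      intro F hF hT'
      exact diam_of_narrow (by omega) (by omega) hn4 (by omega) hF hT'
    rw [H974.Pr_not, H974.pr_TBc (p n) (by
      rintro ⟨x, y, _ | _⟩ h8
      · simp only [H974.mem_TBE_false, H974.mem_RE_false] at h8 ⊢; omega
      · simp only [H974.mem_TBE_true, H974.mem_RE_true] at h8 ⊢; omega)] at h3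
    have e1 : ((2 * m : ℕ) : ℤ) - m = m := by push_cast; ring
    rw [e1, sub_zero] at h3
    linarith
  · intro hT ε hε
    obtain ⟨c, C, hc, hC, hup⟩ := part4
    obtain ⟨η, hη⟩ : ∃ η : ℝ, η = min ε 1 := ⟨_, rfl⟩
    have hη0 : 0 < η := by rw [hη]; exact lt_min hε one_pos
    have hη1 : η ≤ 1 := by rw [hη]; exact min_le_right _ _
    have hηε : η ≤ ε := by rw [hη]; exact min_le_left _ _
    have hlim := H940.GP.exp_tendsto hT (C * (4 / η + 1)) (c := c * (η / 4)) (by positivity)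
    refine squeeze_zero' ?_ ?_ hlim
    · filter_upwards with n
      exact prob_nonneg (hp n).1 (hp n).2 _ _
    · have hev1 : ∀ᶠ n : ℕ in atTop, 4 / η ≤ (n:ℝ) :=
        tendsto_natCast_atTop_atTop.eventually_ge_atTop _
      have hev2 : ∀ᶠ n : ℕ in atTop, 0 < (p n - 1/2) * (n:ℝ)^(3/4 : ℝ) :=
        hT.eventually_gt_atTop 0
      filter_upwards [hev1, hev2, eventually_ge_atTop 1] with n hn1 hn2 hn3
      have hn0 : (1:ℝ) ≤ n := by exact_mod_cast hn3
      have hnp : 0 < (n:ℝ)^(3/4 : ℝ) := by positivity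
      have hδ0 : 0 < p n - 1/2 := by
        by_contra hneg
        push Not at hneg
        nlinarith
      rw [div_le_iff₀ hη0] at hn1
      obtain ⟨h, hh⟩ : ∃ h : ℕ, h = ⌊η / 2 * n⌋₊ := ⟨_, rfl⟩
      have f1 : η / 2 * n < (h:ℝ) + 1 := by rw [hh]; exact Nat.lt_floor_add_one _
      have f2 : (h:ℝ) ≤ η / 2 * n := by rw [hh]; exact Nat.floor_le (by positivity)
      have f3 : η / 4 * n ≤ h := by linarith
      have f4 : (0:ℝ) < h := by linarith
      have f5 : 1 ≤ h := by exact_mod_cast f4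
      have f6 : (h:ℝ) ≤ n := by nlinarith
      have f7 : h ≤ n := by exact_mod_cast f6
      have hb := hup (p n) (by linarith) (hp n).2 n h f5 f7
      have h15 : Real.sqrt 2 < 2 := by
        rw [Real.sqrt_lt' (by norm_num)]
        norm_num
      have hm : prob (p n) n (fun F => diam n F ≤ (Real.sqrt 2 - ε) * n) ≤
          prob (p n) n (fun F => diam n F < Real.sqrt 2 * ((n:ℝ) - h)) := by
        apply prob_mono_event (hp n).1 (hp n).2
        intro F _ hF
        refine lt_of_le_of_lt hF ?_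
        have g1 : Real.sqrt 2 * h < 2 * h := mul_lt_mul_of_pos_right h15 f4
        have g2 : η * n ≤ ε * n := mul_le_mul_of_nonneg_right hηε (by linarith)
        linarith
      refine hm.trans (hb.trans ?_)
      have g1 : (n:ℝ) / h ≤ 4 / η := by
        rw [div_le_div_iff₀ f4 hη0]
        linarith
      have g0 : 0 ≤ (n:ℝ) / h := by positivity
      apply mul_le_mul (mul_le_mul_of_nonneg_left (by linarith) hC.le) _ (Real.exp_pos _).le
        (by positivity)
      apply Real.exp_le_exp.mpr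
      rw [← H940.GP.pow_id hδ0.le]
      have g3 : 0 ≤ (p n - 1/2)^(4/3 : ℝ) := Real.rpow_nonneg hδ0.le _
      have g4 := mul_le_mul_of_nonneg_right f3 g3
      have g5 := mul_le_mul_of_nonneg_left g4 hc.le
      linarith

/-- **The largest cluster of bond percolation on `ℤ²` in the box `Λ_n`, off the critical point.**
(1), (2) The tails of its Euclidean diameter for `p ≤ 1/2`, on the scale `(1/2 - p)^(-4/3)`.
(3) The exact order of its diameter for `p < 1/2`. (4) For `p ≥ 1/2` it comes close to two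
opposite corners of the box. (5), (6) At the parameters `p n`, the rescaled diameter converges to
`0`, respectively to `√2`, if and only if `(1/2 - p n) n^(3/4)`, respectively
`(p n - 1/2) n^(3/4)`, tends to infinity. -/
theorem result :
    -- (1) upper bound for the tail, `p ≤ 1/2`
    (∃ c C : ℝ, 0 < c ∧ 0 < C ∧ ∀ p : ℝ, 0 ≤ p → p ≤ 1/2 → ∀ n h : ℕ, 1 ≤ h →
      prob p n (fun F => (h:ℝ) ≤ diam n F) ≤
        C * ((n:ℝ) / h + 1) ^ 2 * Real.exp (-(c * (h * (1/2 - p)^(4/3 : ℝ))))) ∧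
    -- (2) lower bound for the tail, `p ≤ 1/2`
    (∃ c C : ℝ, 0 < c ∧ 0 < C ∧ ∀ p : ℝ, 1/4 ≤ p → p ≤ 1/2 → ∀ n h : ℕ, 1 ≤ h → h ≤ n →
      prob p n (fun F => diam n F < (h:ℝ)) ≤
        Real.exp (-(c * ((n:ℝ) / h) * Real.exp (-(C * (h * (1/2 - p)^(4/3 : ℝ))))))) ∧
    -- (3) the order of magnitude below criticality
    (∃ a A : ℝ, 0 < a ∧ 0 < A ∧ ∀ p : ℝ, 1/4 ≤ p → p < 1/2 → ∀ n : ℕ, ∀ L R : ℝ,
      L = (1/2 - p)^(-(4/3) : ℝ) → R = L * Real.log ((n:ℝ) / L) → A * L ≤ n →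
        1 - A * L / n ≤ prob p n (fun F => a * R ≤ diam n F ∧ diam n F ≤ A * R)) ∧
    -- (4) above criticality
    (∃ c C : ℝ, 0 < c ∧ 0 < C ∧ ∀ p : ℝ, 1/2 ≤ p → p ≤ 1 → ∀ n h : ℕ, 1 ≤ h → h ≤ n →
      prob p n (fun F => diam n F < Real.sqrt 2 * ((n:ℝ) - h)) ≤
        C * ((n:ℝ) / h + 1) * Real.exp (-(c * (h * (p - 1/2)^(4/3 : ℝ))))) ∧
    -- (5), (6) the critical window
    (∀ p : ℕ → ℝ, (∀ n, 0 ≤ p n ∧ p n ≤ 1) →
      ((∀ ε : ℝ, 0 < ε →
          Tendsto (fun n : ℕ => prob (p n) n (fun F => ε * n ≤ diam n F)) atTop (𝓝 0)) ↔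
        Tendsto (fun n : ℕ => (1/2 - p n) * (n:ℝ)^(3/4 : ℝ)) atTop atTop) ∧
      ((∀ ε : ℝ, 0 < ε → Tendsto (fun n : ℕ => prob (p n) n
          (fun F => diam n F ≤ (Real.sqrt 2 - ε) * n)) atTop (𝓝 0)) ↔
        Tendsto (fun n : ℕ => (p n - 1/2) * (n:ℝ)^(3/4 : ℝ)) atTop atTop)) := by
  refine ⟨part1, ?_, ?_, part4, fun p hp => ⟨window_low p hp, window_up p hp⟩⟩
  · obtain ⟨c, C, hc, hC, hlow⟩ := H940.GP.hom_low winL
    refine ⟨c, C, hc, hC, ?_⟩
    intro p hp0 hp1 n h hh hhn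
    rw [prob_eq]
    have hhn' : (h:ℤ) ≤ n := by exact_mod_cast hhn
    refine le_trans (H974.Pr_mono (H974.okq (by linarith) (by linarith)) ?_)
      (hlow p hp0 hp1 (H974.RE 0 n 0 n) n h hh hhn ?_)
    · intro F _ hd hT
      exact absurd (diam_of_TB hhn hT) (not_le.mpr hd)
    · rintro ⟨x, y, _ | _⟩ h8
      · simp only [H974.mem_TBE_false, H974.mem_RE_false] at h8 ⊢; omega
      · simp only [H974.mem_TBE_true, H974.mem_RE_true] at h8 ⊢; omega
  · obtain ⟨a, A, ha, hA, hasym⟩ := H940.GP.far_asym winU winL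
    refine ⟨a, A, ha, hA, ?_⟩
    intro p hp0 hp1 n L R hL hR hAL
    obtain ⟨k, h1, k1, k2, k3, k4, k5, k6, k7, k8⟩ := hasym p hp0 hp1 n L R hL hR hAL
    have hok := H974.okq (q := p) (by linarith) (by linarith)
    rw [prob_eq]
    have hbad : H974.Pr (fun _ => p) (H974.RE 0 n 0 n)
        (fun F => ¬ (a * R ≤ diam n F ∧ diam n F ≤ A * R)) ≤
        H974.Pr (fun _ => p) (H974.RE 0 n 0 n)
          (fun F => H940.GP.Far n k F ∨ ¬ H974.TBc 0 n 0 h1 F) := by
      apply H974.Pr_mono hok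
      intro F hF hE
      by_contra hcon
      apply hE
      push Not at hcon
      obtain ⟨g1, g2⟩ := hcon
      constructor
      · exact k3.trans (diam_of_TB k5 g2)
      · by_contra hlt
        push Not at hlt
        exact g1 (far_of_diam k1 hF (k2.trans hlt.le))
    have hor := H974.Pr_or_le hok (H974.RE 0 n 0 n) (H940.GP.Far n k)
      (fun F => ¬ H974.TBc 0 n 0 h1 F)
    have hnot := H974.Pr_not (p := fun _ => p) (H974.RE 0 n 0 n)
      (fun F => a * R ≤ diam n F ∧ diam n F ≤ A * R)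
    have e1 : A * L / n = A / 2 * (L / n) + A / 2 * (L / n) := by ring
    rw [e1]
    linarith

end Pool.Agent.Results.MP_6bd702_pr.OffCriticalDiameter
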